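import Pool.Agent.H97.ManesPreCount

/-!
# The maximal number of rational preperiodic points of `b x + c / x` is six for almost all `b`

For `b ∉ {0, 1, 1/2}` and `c = 1 - b` the points `∞`, `0`, `1`, `-1`, `(1 - b) / b`, `-(1 - b) / b` are six different preperiodic points.
-/

set_option autoImplicit false

namespace Pool.Agent.H50.MP

open Pool.Agent.H97

/-- a point which is mapped to a fixed point is preperiodic -/
theorem finite_of_fixed {α : Type*} {f : α → α} {P Q : α} (hP : f P = Q) (hQ : f Q = Q) :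
    (Set.range (fun n : ℕ => f^[n] P)).Finite := by
  refine (Set.toFinite ({P, Q} : Set α)).subset ?_
  rintro _ ⟨n, rfl⟩
  cases n with
  | zero => exact Or.inl rfl
  | succ n =>
    right
    show f^[n + 1] P = Q
    rw [Function.iterate_succ_apply, hP]
    exact Function.iterate_fixed hQ n

theorem six_le {b : ℚ} (hb : b ≠ 0) (h1 : b ≠ 1) (h2 : b ≠ 1 / 2) :
    6 ≤ Set.encard {P : Option ℚ | (Set.range (fun n : ℕ => (fun q : Option ℚ => Option.bind q
      (fun x : ℚ => if x = 0 then none else some (b * x + (1 - b) / x)))^[n] P)).Finite} := by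
  have h1' : (1 : ℚ) - b ≠ 0 := sub_ne_zero.2 (Ne.symm h1)
  set f : Option ℚ → Option ℚ := fun q => Option.bind q
      (fun x : ℚ => if x = 0 then none else some (b * x + (1 - b) / x)) with hf
  set r : ℚ := (1 - b) / b with hr
  have hr0 : r ≠ 0 := div_ne_zero h1' hb
  have hr1 : r ≠ 1 := by
    intro h
    rw [hr, div_eq_iff hb] at h
    apply h2
    linarith
  have hr2 : r ≠ -1 := by
    intro h
    rw [hr, div_eq_iff hb] at h
    linarith
  have hs : ∀ x : ℚ, x ≠ 0 → f (some x) = some (b * x + (1 - b) / x) := by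
    intro x hx
    simp [hf, hx]
  have e0 : f none = none := rfl
  have e1 : f (some 0) = none := by simp [hf]
  have e2 : f (some 1) = some 1 := by
    rw [hs 1 one_ne_zero]
    congr 1
    ring
  have e3 : f (some (-1)) = some (-1) := by
    rw [hs (-1) (by norm_num)]
    congr 1
    ring
  have e4 : f (some r) = some 1 := by
    rw [hs r hr0, hr]
    congr 1
    field_simp
    ring
  have e5 : f (some (-r)) = some (-1) := by
    rw [hs (-r) (neg_ne_zero.2 hr0), hr]
    congr 1
    field_simp
    ring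
  have hcard : (({none, some 0, some 1, some (-1), some r, some (-r)} : Finset (Option ℚ)).card : ℕ∞) = 6 := by
    have hn : r ≠ -r := fun h => hr0 (by linarith)
    have hn1 : -r ≠ 1 := fun h => hr2 (by linarith)
    have hn2 : -r ≠ -1 := fun h => hr1 (by linarith)
    rw [Finset.card_insert_of_notMem, Finset.card_insert_of_notMem, Finset.card_insert_of_notMem, Finset.card_insert_of_notMem,
      Finset.card_insert_of_notMem, Finset.card_singleton]
    · rfl
    · simpa using hn
    · simp only [Finset.mem_insert, Finset.mem_singleton, Option.some.injEq, not_or]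
      exact ⟨Ne.symm hr2, Ne.symm hn2⟩
    · simp only [Finset.mem_insert, Finset.mem_singleton, Option.some.injEq, not_or]
      exact ⟨by norm_num, Ne.symm hr1, Ne.symm hn1⟩
    · simp only [Finset.mem_insert, Finset.mem_singleton, Option.some.injEq, not_or]
      exact ⟨by norm_num, by norm_num, Ne.symm hr0, fun h => hr0 (by linarith)⟩
    · simp
  rw [← hcard, ← Set.encard_coe_eq_coe_finsetCard]
  apply Set.encard_le_encard
  intro P hP
  simp only [Finset.coe_insert, Finset.coe_singleton, Set.mem_insert_iff, Set.mem_singleton_iff] at hP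
  show (Set.range (fun n : ℕ => f^[n] P)).Finite
  rcases hP with rfl | rfl | rfl | rfl | rfl | rfl
  · exact finite_of_fixed e0 e0
  · exact finite_of_fixed e1 e0
  · exact finite_of_fixed e2 e2
  · exact finite_of_fixed e3 e3
  · exact finite_of_fixed e4 e2
  · exact finite_of_fixed e5 e3

/-- for all but `C H ^ (1 + ε)` of the `b` of height at most `H` the maximum over all `c` of the number of the preperiodic points is `6` -/
theorem max_six : ∀ ε : ℝ, 0 < ε → ∃ C : ℝ, ∀ H : ℕ, 1 ≤ H →
    (Set.ncard {b : ℚ | b ≠ 0 ∧ b.num.natAbs ≤ H ∧ b.den ≤ H ∧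
      ¬ IsGreatest {m : ℕ∞ | ∃ c : ℚ, c ≠ 0 ∧ m = Set.encard {P : Option ℚ | (Set.range (fun n : ℕ =>
          (fun q : Option ℚ => Option.bind q
            (fun x : ℚ => if x = 0 then none else some (b * x + c / x)))^[n] P)).Finite}} 6} : ℝ)
      ≤ C * (H : ℝ) ^ (1 + ε) := by
  intro ε hε
  obtain ⟨C, _, hC⟩ := card_excAll_le hε
  refine ⟨C + 2, fun H hH => ?_⟩
  have hH1 : (1 : ℝ) ≤ (H : ℝ) ^ (1 + ε) := Real.one_le_rpow (by exact_mod_cast hH) (by linarith)
  have hle : (Set.ncard {b : ℚ | b ≠ 0 ∧ b.num.natAbs ≤ H ∧ b.den ≤ H ∧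
      ¬ IsGreatest {m : ℕ∞ | ∃ c : ℚ, c ≠ 0 ∧ m = Set.encard {P : Option ℚ | (Set.range (fun n : ℕ =>
          (fun q : Option ℚ => Option.bind q
            (fun x : ℚ => if x = 0 then none else some (b * x + c / x)))^[n] P)).Finite}} 6} : ℝ) ≤
      ((excAll H ∪ {((1 : ℤ), (1 : ℕ)), ((1 : ℤ), (2 : ℕ))}).card : ℝ) := by
    rw [← Set.ncard_coe_finset]
    apply Nat.cast_le.2
    apply Set.ncard_le_ncard_of_injOn (fun b : ℚ => (b.num, b.den))
    · rintro b ⟨hb, hn, hd, hbig⟩
      by_contra hexc
      simp only [Finset.coe_union, Set.mem_union, Finset.mem_coe, not_or] at hexc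
      obtain ⟨hexc, hexc2⟩ := hexc
      have h1 : b ≠ 1 := by
        rintro rfl
        apply hexc2
        simp
      have h2 : b ≠ 1 / 2 := by
        rintro rfl
        apply hexc2
        have e1 : (1 / 2 : ℚ).num = 1 := by norm_num
        have e2 : (1 / 2 : ℚ).den = 2 := by norm_num
        simp only [e1, e2]
        simp
      apply hbig
      refine ⟨⟨1 - b, sub_ne_zero.2 (Ne.symm h1), ?_⟩, ?_⟩
      · exact le_antisymm (six_le hb h1 h2) (encard_le_of_not_exc hb (sub_ne_zero.2 (Ne.symm h1)) hn hd hexc)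
      · rintro m ⟨c, hc, rfl⟩
        exact encard_le_of_not_exc hb hc hn hd hexc
    · intro b₁ _ b₂ _ h
      simp only [Prod.mk.injEq] at h
      exact Rat.ext h.1 h.2
  refine hle.trans ?_
  have h3 : ((excAll H ∪ {((1 : ℤ), (1 : ℕ)), ((1 : ℤ), (2 : ℕ))}).card : ℝ) ≤ (excAll H).card + 2 := by
    have h4 := Finset.card_union_le (excAll H) {((1 : ℤ), (1 : ℕ)), ((1 : ℤ), (2 : ℕ))}
    have h5 : ({((1 : ℤ), (1 : ℕ)), ((1 : ℤ), (2 : ℕ))} : Finset (ℤ × ℕ)).card = 2 := by decide
    rw [h5] at h4
    exact_mod_cast h4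
  have h6 := hC H hH
  nlinarith

end Pool.Agent.H50.MP
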